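import Pool.Agent.N449.SK.Final

/-!
# Sparse factors of differences of consecutive cubes, and of values of irreducible polynomials

A cuban prime is a prime of the form `(k + 1) ^ 3 - k ^ 3`. We prove a theorem about the factorizations of the composite
numbers of this form with `k = a b ^ n`, for every base `b` and every `a` not divisible by `3` (for example
`k = 2 ^ n`, `k = 10 ^ n`): the two factors cannot both be sums of few signed powers of `b`, or of few short blocks of
digits in base `b`.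

More generally, let `F` be an irreducible polynomial with integral coefficients, of degree `D ≥ 1`, let `F (0)` be prime
to `b` and let `|F (0)| / (|F_D| b ^ (n D))` not be an `r`-th power of a rational number for any prime `r`. If
`F (b ^ n) = d e` with integers `|d|, |e| > 1`, and `d = ∑_{i ∈ S} u_i b ^ i`, `e = ∑_{j ∈ T} v_j b ^ j`, `|S| = s`,
`|T| = t`, with arbitrary integers `u_i`, `v_j`, then
`b ^ n ≤ (b + ∑ |F_m| + (∑ |u_i|) (∑ |v_j|)) ^ (4 t (8 t) ^ (s - 1))`.

Proof (`Pool/Agent/N449/SK`). A number `q ≤ (8 t) ^ (s - 1)` is chosen by Dirichlet's theorem such that the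
`q i / n`, `i ∈ S`, are close to integers; comparison of the digits of `d e` and `F (b ^ n)` in suitable blocks gives a
factorization of the polynomial `F (b ^ n X ^ q)`. This polynomial is irreducible for all `q`: if `ρ` is a root of an
irreducible factor of degree `D h`, then taking norms of `b ^ n ρ ^ q = θ`, `F (θ) = 0`, one sees that the `h`-th power
of `|F (0)| / (|F_D| b ^ (n D))` is a `q`-th power.
-/

set_option autoImplicit false

namespace Pool.Agent.Results.MP_22d6bb_nt.SparseFactors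

open Polynomial

/-- **Sparse factors of differences of consecutive cubes, and of values of irreducible polynomials.** -/
theorem result :
    -- the numbers `(k + 1) ^ 3 - k ^ 3` with `k = a b ^ n`
    (∀ b n : ℕ, 2 ≤ b → 0 < n → ∀ a k : ℤ, ¬ (3 : ℤ) ∣ a * b → k = a * (b : ℤ) ^ n →
      ∀ d e : ℤ, d * e = (k + 1) ^ 3 - k ^ 3 → 1 < |d| → 1 < |e| →
      ∀ (S T : Finset ℕ) (u v : ℕ → ℤ), d = ∑ i ∈ S, u i * (b : ℤ) ^ i →
        e = ∑ j ∈ T, v j * (b : ℤ) ^ j →
        (b : ℤ) ^ n ≤ (b + 3 * a ^ 2 + 3 * |a| + 1 + (∑ i ∈ S, |u i|) * (∑ j ∈ T, |v j|)) ^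
          (4 * T.card * (8 * T.card) ^ (S.card - 1))) ∧
    -- the values `F (b ^ n)` of an irreducible polynomial
    ∀ F : ℤ[X], Irreducible F → F.natDegree ≠ 0 → ∀ b n : ℕ, 2 ≤ b → 0 < n →
      IsCoprime (b : ℤ) (F.coeff 0) →
      (∀ (r : ℕ) (z : ℚ), r.Prime →
        z ^ r ≠ |(F.coeff 0 : ℚ)| / (|(F.leadingCoeff : ℚ)| * (b : ℚ) ^ (n * F.natDegree))) →
      ∀ d e : ℤ, d * e = F.eval ((b : ℤ) ^ n) → 1 < |d| → 1 < |e| →
      ∀ (S T : Finset ℕ) (u v : ℕ → ℤ), d = ∑ i ∈ S, u i * (b : ℤ) ^ i →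
        e = ∑ j ∈ T, v j * (b : ℤ) ^ j →
        (b : ℤ) ^ n ≤ (b + (∑ m ∈ Finset.range (F.natDegree + 1), |F.coeff m|) +
          (∑ i ∈ S, |u i|) * (∑ j ∈ T, |v j|)) ^ (4 * T.card * (8 * T.card) ^ (S.card - 1)) := by
  refine ⟨?_, ?_⟩
  · rintro b n hb hn a k h3 rfl d e h hd he S T u v hS hT
    exact Pool.Agent.N449.SK.cubes b n hb hn a h3 d e h hd he S T u v hS hT
  · intro F hF hFd b n hb hn hcop hpow d e h hd he S T u v hS hT
    exact Pool.Agent.N449.SK.final b n hb hn F hF hFd hcop hpow d e h hd he S T u v hS hT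

end Pool.Agent.Results.MP_22d6bb_nt.SparseFactors
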